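import Pool.Agent.Zk97.CB.Stm

/-!
# Dimension theory of the plane
-/

set_option autoImplicit false
set_option linter.all false

open Polynomial

namespace Pool.Agent.Zk52.CB

open Pool.Agent.Zk97.CB

variable {M : Type} [Field M]

lemma alg_of_max (𝔭 : Ideal M[X][X]) (h : 𝔭.IsMaximal) : Algebra.IsAlgebraic M (M[X][X] ⧸ 𝔭) := by
  letI : Field (M[X][X] ⧸ 𝔭) := Ideal.Quotient.field 𝔭
  haveI : Algebra.FiniteType M (M[X][X] ⧸ 𝔭) :=
    Algebra.FiniteType.of_surjective (Ideal.Quotient.mkₐ M 𝔭) (Ideal.Quotient.mkₐ_surjective M 𝔭)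
  haveI : Module.Finite M (M[X][X] ⧸ 𝔭) := finite_of_finite_type_of_isJacobsonRing M (M[X][X] ⧸ 𝔭)
  infer_instance

lemma trdeg_max (𝔭 : Ideal M[X][X]) (h : 𝔭.IsMaximal) : Algebra.trdeg M (M[X][X] ⧸ 𝔭) = 0 := by
  haveI := alg_of_max 𝔭 h
  exact trdeg_eq_zero

lemma alg_quot {R : Type} [CommRing R] [IsDomain R] (π : R[X]) (h0 : π ≠ 0)
    (hI : (Ideal.span {π}).IsPrime) : Algebra.IsAlgebraic R (R[X] ⧸ Ideal.span {π}) := by
  have hy : IsAlgebraic R (Ideal.Quotient.mk (Ideal.span {π}) X) := by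
    refine ⟨π, h0, ?_⟩
    have h1 : aeval (Ideal.Quotient.mk (Ideal.span {π}) X) π =
        Ideal.Quotient.mkₐ R (Ideal.span {π}) (aeval (X : R[X]) π) :=
      Polynomial.aeval_algHom_apply (Ideal.Quotient.mkₐ R (Ideal.span {π})) X π
    rw [h1, aeval_X_left_apply]
    exact Ideal.Quotient.eq_zero_iff_mem.2 (Ideal.mem_span_singleton_self π)
  constructor
  intro z
  obtain ⟨f, rfl⟩ := Ideal.Quotient.mk_surjective z
  induction f using Polynomial.induction_on' with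
  | add p q hp hq => rw [map_add]; exact hp.add hq
  | monomial n a =>
    have h2 : IsAlgebraic R (Ideal.Quotient.mk (Ideal.span {π}) (C a)) :=
      isAlgebraic_algebraMap (R := R) (A := R[X] ⧸ Ideal.span {π}) a
    rw [← C_mul_X_pow_eq_monomial, map_mul, map_pow]
    exact h2.mul (hy.pow n)

lemma trdeg_irr (π : M[X][X]) (hπ : Irreducible π) :
    Algebra.trdeg M (M[X][X] ⧸ Ideal.span {π}) = 1 := by
  have hpr : Prime π := hπ.prime
  haveI hI : (Ideal.span {π}).IsPrime := (Ideal.span_singleton_prime hπ.ne_zero).2 hpr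
  rcases Nat.eq_zero_or_pos π.natDegree with h0 | h0
  · obtain ⟨p, rfl⟩ : ∃ p, π = C p := ⟨_, eq_C_of_natDegree_eq_zero h0⟩
    have hp : Prime p := (prime_C_iff).1 hpr
    have hmax : (Ideal.span {p}).IsMaximal :=
      PrincipalIdealRing.isMaximal_of_irreducible hp.irreducible
    letI : Field (M[X] ⧸ Ideal.span {p}) := Ideal.Quotient.field _
    haveI : Algebra.FiniteType M (M[X] ⧸ Ideal.span {p}) :=
      Algebra.FiniteType.of_surjective (Ideal.Quotient.mkₐ M (Ideal.span {p}))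
        (Ideal.Quotient.mkₐ_surjective M _)
    haveI : Module.Finite M (M[X] ⧸ Ideal.span {p}) :=
      finite_of_finite_type_of_isJacobsonRing M (M[X] ⧸ Ideal.span {p})
    let φ : M[X][X] →ₐ[M] (M[X] ⧸ Ideal.span {p})[X] :=
      Polynomial.mapAlgHom (Ideal.Quotient.mkₐ M (Ideal.span {p}))
    have hφ : Function.Surjective φ :=
      Polynomial.map_surjective _ (Ideal.Quotient.mk_surjective)
    have hker : RingHom.ker φ = Ideal.span {C p} := by
      have h1 : RingHom.ker φ = RingHom.ker (Polynomial.mapRingHom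
        (Ideal.Quotient.mk (Ideal.span {p}))) := rfl
      rw [h1, Polynomial.ker_mapRingHom, Ideal.mk_ker, Ideal.map_span, Set.image_singleton]
    have e1 : (M[X][X] ⧸ Ideal.span {C p}) ≃ₐ[M] (M[X] ⧸ Ideal.span {p})[X] :=
      (Ideal.quotientEquivAlgOfEq M hker.symm).trans (Ideal.quotientKerAlgEquivOfSurjective hφ)
    rw [e1.trdeg_eq, ← trdeg_add_eq M (M[X] ⧸ Ideal.span {p}) (A := (M[X] ⧸ Ideal.span {p})[X]),
      Polynomial.trdeg_of_isDomain, trdeg_eq_zero (R := M) (A := M[X] ⧸ Ideal.span {p}), zero_add]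
  · have hinj : Function.Injective
        ((Ideal.Quotient.mk (Ideal.span {π})).comp (C : M[X] →+* M[X][X])) := by
      rw [injective_iff_map_eq_zero]
      intro q hq
      have h1 : (C q : M[X][X]) ∈ Ideal.span {π} := by
        rw [← Ideal.Quotient.eq_zero_iff_mem]
        exact hq
      rw [Ideal.mem_span_singleton] at h1
      by_contra hq0
      have h2 := natDegree_le_of_dvd h1 (by rwa [Ne, C_eq_zero])
      rw [natDegree_C] at h2
      omega
    haveI : FaithfulSMul M[X] (M[X][X] ⧸ Ideal.span {π}) :=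
      (faithfulSMul_iff_algebraMap_injective M[X] (M[X][X] ⧸ Ideal.span {π})).2 hinj
    haveI : Algebra.IsAlgebraic M[X] (M[X][X] ⧸ Ideal.span {π}) := alg_quot π hπ.ne_zero hI
    rw [← trdeg_add_eq M M[X] (A := M[X][X] ⧸ Ideal.span {π}),
      Polynomial.trdeg_of_isDomain, trdeg_eq_zero (R := M[X]) (A := M[X][X] ⧸ Ideal.span {π}), add_zero]

lemma prime_or_max (𝔯 : Ideal M[X][X]) (hr : 𝔯.IsPrime) (π : M[X][X]) (hπ : π ∈ 𝔯)
    (hi : Irreducible π) : 𝔯 = Ideal.span {π} ∨ 𝔯.IsMaximal := by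
  by_contra hcon
  push Not at hcon
  obtain ⟨h1, h2⟩ := hcon
  obtain ⟨𝔪, hm, hle⟩ := Ideal.exists_le_maximal 𝔯 hr.ne_top
  have hlt : 𝔯 < 𝔪 := lt_of_le_of_ne hle fun h => h2 (h ▸ hm)
  have hI : (Ideal.span {π}).IsPrime := (Ideal.span_singleton_prime hi.ne_zero).2 hi.prime
  have hlt2 : Ideal.span {π} < 𝔯 :=
    lt_of_le_of_ne ((Ideal.span_singleton_le_iff_mem _).2 hπ) fun h => h1 h.symm
  have hlt3 : (⊥ : Ideal M[X][X]) < Ideal.span {π} := by
    rw [bot_lt_iff_ne_bot, Ne, Ideal.span_singleton_eq_bot]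
    exact hi.ne_zero
  have hdim : ringKrullDim M[X][X] = 2 := by
    rw [Polynomial.ringKrullDim_of_isNoetherianRing, Polynomial.ringKrullDim_of_isNoetherianRing,
      ringKrullDim_eq_zero_of_field]
    norm_num
  let a0 : PrimeSpectrum M[X][X] := ⟨⊥, Ideal.isPrime_bot⟩
  let a1 : PrimeSpectrum M[X][X] := ⟨Ideal.span {π}, hI⟩
  let a2 : PrimeSpectrum M[X][X] := ⟨𝔯, hr⟩
  let a3 : PrimeSpectrum M[X][X] := ⟨𝔪, hm.isPrime⟩
  let s : LTSeries (PrimeSpectrum M[X][X]) :=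
    { length := 3
      toFun := ![a0, a1, a2, a3]
      step := by
        intro i
        fin_cases i
        · exact hlt3
        · exact hlt2
        · exact hlt }
  have h3 : ((3 : ℕ) : WithBot ℕ∞) ≤ ringKrullDim M[X][X] := Order.LTSeries.length_le_krullDim s
  rw [hdim] at h3
  exact absurd h3 (by norm_num)

lemma exists_D (𝔯 : Ideal M[X][X]) (hr : 𝔯.IsMaximal) (a b : M[X][X]) (ha : a ∉ 𝔯) :
    ∃ D : M[X], D ≠ 0 ∧ hm D b a ∈ 𝔯 := by
  letI : Field (M[X][X] ⧸ 𝔯) := Ideal.Quotient.field 𝔯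
  haveI := alg_of_max 𝔯 hr
  set mk := Ideal.Quotient.mk 𝔯 with hmk
  have ha0 : mk a ≠ 0 := fun h => ha (Ideal.Quotient.eq_zero_iff_mem.1 h)
  obtain ⟨D, hD, hz⟩ := Algebra.IsAlgebraic.isAlgebraic (R := M) (mk b / mk a)
  refine ⟨D, hD, ?_⟩
  rw [← Ideal.Quotient.eq_zero_iff_mem]
  have h1 : mk (hm D b a) = mk a ^ D.natDegree * aeval (mk b / mk a) D := by
    unfold hm
    rw [map_sum, aeval_eq_sum_range, Finset.mul_sum]
    refine Finset.sum_congr rfl fun i hi => ?_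
    have hi' : i ≤ D.natDegree := by have := Finset.mem_range.1 hi; omega
    rw [map_mul, map_mul, map_pow, map_pow, Algebra.smul_def, div_pow]
    have h2 : mk (C (C (D.coeff i))) = algebraMap M (M[X][X] ⧸ 𝔯) (D.coeff i) := rfl
    have h3 : mk a ^ D.natDegree = mk a ^ (D.natDegree - i) * mk a ^ i := by
      rw [← pow_add, Nat.sub_add_cancel hi']
    rw [h2, h3]
    field_simp
  rw [h1, hz, mul_zero]

theorem t_D : StD := fun M _ =>
  ⟨trdeg_max, trdeg_irr, fun 𝔯 hr π hπ hi => prime_or_max 𝔯 hr π hπ hi,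
    fun 𝔯 hr a b ha => exists_D 𝔯 hr a b ha⟩

end Pool.Agent.Zk52.CB
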