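import Pool.Agent.Zk97.CB.PDefs

/-! Smooth plane curves are irreducible (module S). -/

set_option autoImplicit false
set_option linter.all false

open Polynomial

namespace Pool.Agent.Zk52.CB

open Pool.Agent.Zk97.CB

variable {k : Type} [Field k]

/-- `x ↦ T`, `y ↦ y T` -/
noncomputable def Ps (k : Type) [Field k] : k[X][X] →+* k[X][X] :=
  eval₂RingHom (mapRingHom (C : k →+* k[X])) (C X * X)

lemma Ps_monomial (i : ℕ) (p : k[X]) : Ps k (monomial i p) = p.map C * C (X ^ i) * X ^ i := by
  unfold Ps
  rw [coe_eval₂RingHom, eval₂_monomial, mul_pow, ← C_pow, coe_mapRingHom, mul_assoc]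

lemma Ps_coeff (P : k[X][X]) (n : ℕ) :
    (Ps k P).coeff n = ∑ i ∈ Finset.range (n + 1), C ((P.coeff i).coeff (n - i)) * X ^ i := by
  induction P using Polynomial.induction_on' with
  | add p q hp hq =>
    rw [map_add, coeff_add, hp, hq, ← Finset.sum_add_distrib]
    refine Finset.sum_congr rfl fun i _ => ?_
    rw [coeff_add, coeff_add, C_add, add_mul]
  | monomial i p =>
    rw [Ps_monomial, coeff_mul_X_pow']
    by_cases h : i ≤ n
    · rw [if_pos h, coeff_mul_C, coeff_map, Finset.sum_eq_single i]
      · rw [coeff_monomial, if_pos rfl]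
      · intro j _ hj
        rw [coeff_monomial, if_neg (Ne.symm hj), coeff_zero, C_0, zero_mul]
      · intro h'
        exact absurd (Finset.mem_range.2 (Nat.lt_succ_of_le h)) h'
    · rw [if_neg h]
      symm
      refine Finset.sum_eq_zero fun j hj => ?_
      have := Finset.mem_range.1 hj
      rw [coeff_monomial, if_neg (by omega), coeff_zero, C_0, zero_mul]

lemma Ps_coeff_coeff (P : k[X][X]) (n i : ℕ) :
    ((Ps k P).coeff n).coeff i = if i ≤ n then (P.coeff i).coeff (n - i) else 0 := by
  rw [Ps_coeff, finset_sum_coeff]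
  simp_rw [coeff_C_mul, coeff_X_pow, mul_ite, mul_one, mul_zero]
  rw [Finset.sum_ite_eq]
  simp only [Finset.mem_range, Nat.lt_succ_iff]

lemma Ps_inj : Function.Injective (Ps k) := by
  rw [injective_iff_map_eq_zero]
  intro P hP
  ext i j
  have := Ps_coeff_coeff P (i + j) i
  rw [hP, if_pos (Nat.le_add_right i j), Nat.add_sub_cancel_left] at this
  rw [← this]
  simp

lemma natDegree_coeff_le (P : k[X][X]) (n : ℕ) : ((Ps k P).coeff n).natDegree ≤ n := by
  rw [natDegree_le_iff_coeff_eq_zero]
  intro N hN
  rw [Ps_coeff_coeff, if_neg (by omega)]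

lemma top_eq (d : ℕ) (P : k[X][X]) : top d P = (Ps k P).coeff d := (Ps_coeff P d).symm

lemma degLe_iff (d : ℕ) (P : k[X][X]) : DegLe d P ↔ (Ps k P).natDegree ≤ d := by
  rw [natDegree_le_iff_coeff_eq_zero]
  constructor
  · intro h N hN
    ext i
    rw [Ps_coeff_coeff]
    by_cases hi : i ≤ N
    · rw [if_pos hi, coeff_zero]
      by_contra hc
      have := h i (N - i) hc
      omega
    · rw [if_neg hi, coeff_zero]
  · intro h i j hij
    by_contra hc
    have h1 := h (i + j) (by omega)
    have h2 := Ps_coeff_coeff P (i + j) i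
    rw [h1, if_pos (Nat.le_add_right i j), Nat.add_sub_cancel_left, coeff_zero] at h2
    exact hij h2.symm

lemma dx_coeff (P : k[X][X]) (i : ℕ) : (dx P).coeff i = derivative (P.coeff i) := by
  unfold dx
  rw [finset_sum_coeff]
  simp_rw [coeff_C_mul, coeff_X_pow, mul_ite, mul_one, mul_zero]
  rw [Finset.sum_ite_eq]
  by_cases h : i ≤ P.natDegree
  · rw [if_pos (Finset.mem_range.2 (Nat.lt_succ_of_le h))]
  · rw [if_neg (by rw [Finset.mem_range]; omega), coeff_eq_zero_of_natDegree_lt (by omega),
      derivative_zero]

lemma dx_mul (P Q : k[X][X]) : dx (P * Q) = dx P * Q + P * dx Q := by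
  ext1 n
  rw [dx_coeff, coeff_add, coeff_mul, coeff_mul, coeff_mul, map_sum, ← Finset.sum_add_distrib]
  refine Finset.sum_congr rfl fun z _ => ?_
  rw [derivative_mul, dx_coeff, dx_coeff]

lemma coprime_of_smooth {f g : k[X][X]} (h : Smooth (f * g)) : ∃ a b : k[X][X], a * f + b * g = 1 := by
  obtain ⟨u, v, s, h⟩ := h
  rw [dx_mul, derivative_mul] at h
  refine ⟨u * g + v * dx g + s * derivative g, v * dx f + s * derivative f, ?_⟩
  rw [← h]
  ring

/-- the form `c` of degree `r` -/
noncomputable def form (r : ℕ) (c : k[X]) : k[X][X] :=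
  ∑ i ∈ Finset.range (r + 1), C (C (c.coeff i) * X ^ (r - i)) * X ^ i

lemma Ps_form {r : ℕ} {c : k[X]} (hc : c.natDegree ≤ r) : Ps k (form r c) = C c * X ^ r := by
  unfold form
  rw [map_sum]
  have : ∀ i ∈ Finset.range (r + 1), Ps k (C (C (c.coeff i) * X ^ (r - i)) * X ^ i) =
      C (C (c.coeff i) * X ^ i) * X ^ r := by
    intro i hi
    have hi' := Finset.mem_range.1 hi
    rw [C_mul_X_pow_eq_monomial, Ps_monomial]
    rw [Polynomial.map_mul, Polynomial.map_pow, map_C, map_X]
    have : (X : k[X][X]) ^ r = X ^ (r - i) * X ^ i := by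
      rw [← pow_add]; congr 1; omega
    rw [this]
    simp only [C_mul, C_pow]
    ring
  rw [Finset.sum_congr rfl this, ← Finset.sum_mul, ← map_sum]
  congr 2
  exact (as_sum_range_C_mul_X_pow' c (by omega)).symm

/-- the descent -/
lemma descent {f g : k[X][X]} {e e' : ℕ} (he : 0 < e) (he' : 0 < e')
    (hf : (Ps k f).natDegree = e) (hg : (Ps k g).natDegree = e')
    (hf1 : ((Ps k f).coeff e).natDegree = e)
    (hco : IsCoprime ((Ps k f).coeff e) ((Ps k g).coeff e')) (m : ℕ) :
    ∀ a b : k[X][X], (Ps k (a * f)).natDegree ≤ m → (Ps k (b * g)).natDegree ≤ m →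
      a * f + b * g ≠ 1 := by
  have hf0 : Ps k f ≠ 0 := by
    intro h
    rw [h, natDegree_zero] at hf
    omega
  have hg0 : Ps k g ≠ 0 := by
    intro h
    rw [h, natDegree_zero] at hg
    omega
  have hlf : (Ps k f).coeff e ≠ 0 := by
    rw [← hf, coeff_natDegree]; exact leadingCoeff_ne_zero.2 hf0
  induction m with
  | zero =>
    intro a b ha hb h
    have h1 : a = 0 := by
      by_contra hc
      have hc' : Ps k a ≠ 0 := fun h' => hc (Ps_inj (by rw [h', map_zero]))
      rw [map_mul, natDegree_mul hc' hf0] at ha
      omega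
    have h2 : b = 0 := by
      by_contra hc
      have hc' : Ps k b ≠ 0 := fun h' => hc (Ps_inj (by rw [h', map_zero]))
      rw [map_mul, natDegree_mul hc' hg0] at hb
      omega
    rw [h1, h2] at h
    simp at h
  | succ m ih =>
    intro a b ha hb h
    have hsum : (Ps k (a * f)).coeff (m + 1) + (Ps k (b * g)).coeff (m + 1) = 0 := by
      rw [← coeff_add, ← map_add, h, map_one, coeff_one, if_neg (by omega)]
    have red : ∀ P : k[X][X], P.natDegree ≤ m + 1 → P.coeff (m + 1) = 0 → P.natDegree ≤ m := by
      intro P h1 h2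
      rw [natDegree_le_iff_coeff_eq_zero] at h1 ⊢
      intro N hN
      rcases Nat.lt_or_ge (m + 1) N with h3 | h3
      · exact h1 N h3
      · have : N = m + 1 := by omega
        rw [this, h2]
    by_cases hz : (Ps k (a * f)).coeff (m + 1) = 0
    · have hz' : (Ps k (b * g)).coeff (m + 1) = 0 := by rwa [hz, zero_add] at hsum
      exact ih a b (red _ ha hz) (red _ hb hz') h
    · have hz' : (Ps k (b * g)).coeff (m + 1) ≠ 0 := by
        intro h'
        rw [h', add_zero] at hsum
        exact hz hsum
      have ha0 : Ps k a ≠ 0 := by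
        intro h'
        rw [map_mul, h', zero_mul, coeff_zero] at hz
        exact hz rfl
      have hb0 : Ps k b ≠ 0 := by
        intro h'
        rw [map_mul, h', zero_mul, coeff_zero] at hz'
        exact hz' rfl
      have d1 : (Ps k a).natDegree + e = m + 1 := by
        have h1 : (Ps k (a * f)).natDegree = m + 1 := le_antisymm ha (le_natDegree_of_ne_zero hz)
        rw [map_mul, natDegree_mul ha0 hf0, hf] at h1
        exact h1
      have d2 : (Ps k b).natDegree + e' = m + 1 := by
        have h1 : (Ps k (b * g)).natDegree = m + 1 := le_antisymm hb (le_natDegree_of_ne_zero hz')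
        rw [map_mul, natDegree_mul hb0 hg0, hg] at h1
        exact h1
      set A := (Ps k a).coeff (Ps k a).natDegree with hA
      set B := (Ps k b).coeff (Ps k b).natDegree with hB
      set t1 := (Ps k f).coeff e with ht1
      set t2 := (Ps k g).coeff e' with ht2
      have c1 : (Ps k (a * f)).coeff (m + 1) = A * t1 := by
        rw [map_mul, ← d1, coeff_mul_add_eq_of_natDegree_le le_rfl hf.le]
      have c2 : (Ps k (b * g)).coeff (m + 1) = B * t2 := by
        rw [map_mul, ← d2, coeff_mul_add_eq_of_natDegree_le le_rfl hg.le]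
      rw [c1, c2] at hsum
      have dv : t1 ∣ B := by
        have : t1 ∣ B * t2 := ⟨-A, by linear_combination hsum⟩
        exact hco.dvd_of_dvd_mul_right this
      obtain ⟨c, hc⟩ := dv
      have hAc : A = - (c * t2) := by
        have : t1 * (A + c * t2) = 0 := by
          rw [hc] at hsum
          linear_combination hsum
        rcases mul_eq_zero.1 this with h' | h'
        · exact absurd h' hlf
        · linear_combination h'
      have hB0 : B ≠ 0 := by
        rw [hB, coeff_natDegree]; exact leadingCoeff_ne_zero.2 hb0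
      have hc0 : c ≠ 0 := by
        intro h'
        rw [h', mul_zero] at hc
        exact hB0 hc
      have hdeg : c.natDegree + e ≤ (Ps k b).natDegree := by
        have h1 : B.natDegree ≤ (Ps k b).natDegree := natDegree_coeff_le b _
        rw [hc, natDegree_mul hlf hc0, hf1] at h1
        omega
      set r := (Ps k b).natDegree - e with hr
      have hcr : c.natDegree ≤ r := by omega
      have hre : r + e + e' = m + 1 := by omega
      refine ih (a + form r c * g) (b - form r c * f) ?_ ?_ (by rw [← h]; ring)
      · refine red _ ?_ ?_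
        · rw [add_mul, map_add]
          refine (natDegree_add_le _ _).trans (max_le ha ?_)
          rw [map_mul, map_mul, Ps_form hcr]
          refine natDegree_mul_le.trans ?_
          rw [hf]
          refine (Nat.add_le_add_right natDegree_mul_le _).trans ?_
          rw [hg]
          have := natDegree_C_mul_X_pow_le c r
          omega
        · rw [add_mul, map_add, coeff_add, c1]
          have : (Ps k (form r c * g * f)).coeff (m + 1) = c * t2 * t1 := by
            rw [map_mul, map_mul, Ps_form hcr, mul_assoc, ← hre]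
            rw [show r + e + e' = r + (e' + e) by ring]
            rw [coeff_mul_add_eq_of_natDegree_le (natDegree_C_mul_X_pow_le c r)
              (natDegree_mul_le.trans (by rw [hf, hg])),
              coeff_mul_add_eq_of_natDegree_le hg.le hf.le, coeff_C_mul_X_pow, if_pos rfl]
            ring
          rw [this, hAc]
          ring
      · refine red _ ?_ ?_
        · rw [sub_mul, map_sub]
          refine (natDegree_sub_le _ _).trans (max_le hb ?_)
          rw [map_mul, map_mul, Ps_form hcr]
          refine natDegree_mul_le.trans ?_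
          rw [hg]
          refine (Nat.add_le_add_right natDegree_mul_le _).trans ?_
          rw [hf]
          have := natDegree_C_mul_X_pow_le c r
          omega
        · rw [sub_mul, map_sub, coeff_sub, c2]
          have : (Ps k (form r c * f * g)).coeff (m + 1) = c * t1 * t2 := by
            rw [map_mul, map_mul, Ps_form hcr, mul_assoc, ← hre]
            rw [show r + e + e' = r + (e + e') by ring]
            rw [coeff_mul_add_eq_of_natDegree_le (natDegree_C_mul_X_pow_le c r)
              (natDegree_mul_le.trans (by rw [hf, hg])),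
              coeff_mul_add_eq_of_natDegree_le hf.le hg.le, coeff_C_mul_X_pow, if_pos rfl]
            ring
          rw [this, hc]
          ring

theorem t_S : StS := by
  intro k _ d hd G hG
  obtain ⟨⟨hdeg, hcd⟩, hsm, htop⟩ := hG
  have hnd : G.natDegree = d := by
    refine le_antisymm ?_ (le_natDegree_of_ne_zero (by rw [hcd]; exact one_ne_zero))
    rw [natDegree_le_iff_coeff_eq_zero]
    intro N hN
    ext j
    rw [coeff_zero]
    by_contra hc
    have := hdeg N j hc
    omega
  have hmon : G.Monic := by
    rw [Monic, leadingCoeff, hnd, hcd]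
  have hG1 : G ≠ 1 := by
    intro h
    rw [h, natDegree_one] at hnd
    omega
  rw [irreducible_of_monic hmon hG1]
  intro f g hf hg hfg
  by_contra hcon
  push Not at hcon
  obtain ⟨hf1, hg1⟩ := hcon
  set e := f.natDegree with he
  set e' := g.natDegree with he'
  have hepos : 0 < e := by
    rcases Nat.eq_zero_or_pos e with h | h
    · exact absurd (hf.natDegree_eq_zero.1 h) hf1
    · exact h
  have hepos' : 0 < e' := by
    rcases Nat.eq_zero_or_pos e' with h | h
    · exact absurd (hg.natDegree_eq_zero.1 h) hg1
    · exact h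
  have hsum : e + e' = d := by
    rw [← hnd, ← hfg, hf.natDegree_mul hg]
  have key : ∀ P : k[X][X], P.Monic → ((Ps k P).coeff P.natDegree).coeff P.natDegree = 1 := by
    intro P hP
    rw [Ps_coeff_coeff, if_pos le_rfl, Nat.sub_self]
    have : P.coeff P.natDegree = 1 := hP
    rw [this, coeff_one_zero]
  have key2 : ∀ P : k[X][X], P.Monic → P.natDegree ≤ (Ps k P).natDegree := by
    intro P hP
    refine le_natDegree_of_ne_zero ?_
    intro h
    have := key P hP
    rw [h, coeff_zero] at this
    exact zero_ne_one this
  have hPG : (Ps k G).natDegree ≤ d := (degLe_iff d G).1 hdeg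
  have n0 : ∀ P : k[X][X], P.Monic → Ps k P ≠ 0 := by
    intro P hP h
    have := key P hP
    rw [h, coeff_zero, coeff_zero] at this
    exact zero_ne_one this
  have hadd : (Ps k f).natDegree + (Ps k g).natDegree ≤ d := by
    rw [← natDegree_mul (n0 f hf) (n0 g hg), ← map_mul, hfg]
    exact hPG
  have hF : (Ps k f).natDegree = e := by
    have h1 := key2 f hf
    have h2 := key2 g hg
    omega
  have hGg : (Ps k g).natDegree = e' := by
    have h1 := key2 f hf
    have h2 := key2 g hg
    omega
  have hF1 : ((Ps k f).coeff e).natDegree = e := by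
    refine le_antisymm (natDegree_coeff_le f e) (le_natDegree_of_ne_zero ?_)
    rw [key f hf]
    exact one_ne_zero
  have htt : top d G = (Ps k f).coeff e * (Ps k g).coeff e' := by
    rw [top_eq, ← hfg, map_mul, ← hsum, coeff_mul_add_eq_of_natDegree_le hF.le hGg.le]
  have hco : IsCoprime ((Ps k f).coeff e) ((Ps k g).coeff e') := by
    rw [htt, derivative_mul] at htop
    obtain ⟨u, v, huv⟩ := htop
    refine ⟨u * (Ps k g).coeff e' + v * derivative ((Ps k g).coeff e'),
      v * derivative ((Ps k f).coeff e), ?_⟩
    rw [← huv]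
    ring
  rw [← hfg] at hsm
  obtain ⟨a, b, hab⟩ := coprime_of_smooth hsm
  exact descent hepos hepos' hF hGg hF1 hco
    (max (Ps k (a * f)).natDegree (Ps k (b * g)).natDegree) a b (le_max_left _ _) (le_max_right _ _)
    hab

end Pool.Agent.Zk52.CB
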