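import Pool.Agent.Zk52.CB.P1
import Pool.Agent.Zk86.CB.P0
import Pool.Agent.Zk97.CB.XDefs

/-!
# Places of the function field of an absolutely irreducible plane curve: discreteness, constants
-/

set_option autoImplicit false
set_option linter.unusedSectionVars false
set_option linter.style.haveILetI false

open Polynomial

namespace Pool.Agent.Zk52.CB

section unif

open Pool.Agent.H928R2.Inv (IsUnif)

variable {L : Type} [Field L] {O : ValuationSubring L} {t : L}

theorem unif_nonneg (h : IsUnif O t) {u : L} {j : ℤ} (hu0 : u ≠ 0) (hu : u⁻¹ ∈ O)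
    (hm : u * t ^ j ∈ O) : 0 ≤ j := by
  by_contra hj
  apply h.inv
  obtain ⟨n, hn⟩ : ∃ n : ℕ, -1 - j = n := ⟨(-1 - j).toNat, (Int.toNat_of_nonneg (by omega)).symm⟩
  have h1 : t⁻¹ = u⁻¹ * (u * t ^ j) * t ^ n := by
    rw [← mul_assoc, inv_mul_cancel₀ hu0, one_mul, ← zpow_natCast, ← hn, ← zpow_add₀ h.ne]
    rw [show j + (-1 - j) = -1 by ring, zpow_neg_one]
  rw [h1]
  exact O.mul_mem _ _ (O.mul_mem _ _ hu hm) (pow_mem h.mem n)

theorem unif_unit {u : L} (hu0 : u ≠ 0) (hu : u ∈ O) (hu' : u⁻¹ ∈ O) : IsUnit (⟨u, hu⟩ : O) :=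
  IsUnit.of_mul_eq_one ⟨u⁻¹, hu'⟩ (Subtype.ext (mul_inv_cancel₀ hu0))

theorem unif_dvr (h : IsUnif O t) : IsDiscreteValuationRing O := by
  apply IsDiscreteValuationRing.ofHasUnitMulPowIrreducibleFactorization
  have hfac : ∀ a : O, a ≠ 0 → ∃ (n : ℕ) (u : L), u ≠ 0 ∧ u ∈ O ∧ u⁻¹ ∈ O ∧ (a : L) = u * t ^ n := by
    intro a ha
    have ha0 : (a : L) ≠ 0 := fun h0 => ha (Subtype.ext h0)
    obtain ⟨j, u, hu, hu', hau⟩ := h.fac a ha0
    have hu0 : u ≠ 0 := by
      rintro rfl
      rw [zero_mul] at hau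
      exact ha0 hau
    have hj := unif_nonneg h hu0 hu' (hau ▸ a.2)
    obtain ⟨n, rfl⟩ := Int.eq_ofNat_of_zero_le hj
    exact ⟨n, u, hu0, hu, hu', by rw [hau, zpow_natCast]⟩
  refine ⟨⟨t, h.mem⟩, ⟨?_, ?_⟩, ?_⟩
  · intro hun
    obtain ⟨⟨v, hv⟩, hv2⟩ := hun.exists_right_inv
    apply h.inv
    have h1 : t * v = 1 := congrArg Subtype.val hv2
    rw [← eq_inv_of_mul_eq_one_right h1]
    exact hv
  · intro a b hab
    have hab' : t = (a : L) * b := congrArg Subtype.val hab
    have ha : a ≠ 0 := by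
      rintro rfl
      apply h.ne
      rw [hab']
      exact zero_mul _
    have hb : b ≠ 0 := by
      rintro rfl
      apply h.ne
      rw [hab']
      exact mul_zero _
    obtain ⟨m, u, hu0, hu, hu', hau⟩ := hfac a ha
    obtain ⟨n, v, hv0, hv, hv', hbv⟩ := hfac b hb
    rcases Nat.eq_zero_or_pos m with rfl | hm
    · left
      have : a = ⟨u, hu⟩ := Subtype.ext (by rw [hau, pow_zero, mul_one])
      rw [this]
      exact unif_unit hu0 hu hu'
    rcases Nat.eq_zero_or_pos n with rfl | hn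
    · right
      have : b = ⟨v, hv⟩ := Subtype.ext (by rw [hbv, pow_zero, mul_one])
      rw [this]
      exact unif_unit hv0 hv hv'
    exfalso
    apply h.inv
    obtain ⟨m, rfl⟩ : ∃ k, m = k + 1 := ⟨m - 1, by omega⟩
    obtain ⟨n, rfl⟩ : ∃ k, n = k + 1 := ⟨n - 1, by omega⟩
    have h1 : t * (u * v * t ^ (m + n)) * t = t := by
      conv_rhs => rw [hab', hau, hbv]
      ring
    have h2 : t * (u * v * t ^ (m + n)) = 1 := by
      have := mul_right_cancel₀ h.ne (h1.trans (one_mul t).symm)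
      exact this
    rw [← eq_inv_of_mul_eq_one_right h2]
    exact O.mul_mem _ _ (O.mul_mem _ _ hu hv) (pow_mem h.mem _)
  · intro a ha
    obtain ⟨n, u, hu0, hu, hu', hau⟩ := hfac a ha
    refine ⟨n, ?_⟩
    obtain ⟨w, hw⟩ := unif_unit hu0 hu hu'
    refine ⟨w, ?_⟩
    rw [hw]
    apply Subtype.ext
    rw [hau]
    change t ^ n * u = u * t ^ n
    ring

end unif

/-- integral elements are in the valuation rings -/
theorem mem_of_alg {K L : Type} [Field K] [Field L] [Algebra K L] {t : L} (ht : IsAlgebraic K t)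
    (O : ValuationSubring L) (hO : ∀ c : K, algebraMap K L c ∈ O) : t ∈ O := by
  obtain ⟨p, hp, hpt⟩ := ht.isIntegral
  let g : K →+* O := (algebraMap K L).codRestrict O.toSubring hO
  have h1 : IsIntegral O t := by
    refine ⟨p.map g, hp.map g, ?_⟩
    rw [eval₂_map]
    exact hpt
  obtain ⟨y, hy⟩ := IsIntegrallyClosed.isIntegral_iff.1 h1
  rw [← hy]
  exact y.2

/-- the constants -/
theorem const_alg {K L : Type} [Field K] [Field L] [Algebra K L] (f : K[X][X]) (hf : f.Monic)
    (hd : 0 < f.natDegree)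
    (hirr : Irreducible (f.map (mapRingHom (algebraMap K (AlgebraicClosure K)))))
    [Algebra (AdjoinRoot f) L] [IsFractionRing (AdjoinRoot f) L]
    (hc : ∀ c : K, algebraMap K L c = algebraMap (AdjoinRoot f) L (AdjoinRoot.of f (C c)))
    (t : L) (ht : IsAlgebraic K t) : ∃ c : K, algebraMap K L c = t := by
  classical
  set k := AlgebraicClosure K with hk
  set φ : K →+* k := algebraMap K k with hφ
  set f' : k[X][X] := f.map (mapRingHom φ) with hf'
  have hf'm : f'.Monic := hf.map _
  have hf'd : f'.natDegree = f.natDegree := hf.natDegree_map _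
  haveI hdom : IsDomain (AdjoinRoot f') := by
    have h1 : (Ideal.span {f'}).IsPrime :=
      (Ideal.span_singleton_prime hirr.ne_zero).mpr hirr.prime
    exact Ideal.Quotient.isDomain (Ideal.span {f'})
  let L' := FractionRing (AdjoinRoot f')
  -- the map
  let ι : AdjoinRoot f →+* AdjoinRoot f' :=
    AdjoinRoot.lift ((AdjoinRoot.of f').comp (mapRingHom φ)) (AdjoinRoot.root f') (by
      rw [← eval₂_map, ← hf', AdjoinRoot.eval₂_root])
  have hι : ∀ g : K[X][X], ι (AdjoinRoot.mk f g) = AdjoinRoot.mk f' (g.map (mapRingHom φ)) := by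
    intro g
    change AdjoinRoot.lift _ _ _ (AdjoinRoot.mk f g) = _
    rw [AdjoinRoot.lift_mk, ← eval₂_map]
    exact AdjoinRoot.aeval_eq (f := f') _
  -- representatives
  have hrep : ∀ z : AdjoinRoot f, ∃ g : K[X][X], g.degree < f.degree ∧ AdjoinRoot.mk f g = z := by
    intro z
    obtain ⟨g, rfl⟩ := AdjoinRoot.mk_surjective z
    refine ⟨g %ₘ f, degree_modByMonic_lt _ hf, ?_⟩
    rw [AdjoinRoot.mk_eq_mk]
    exact ⟨-(g /ₘ f), by
      have := modByMonic_add_div g f
      linear_combination this⟩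
  have hsmall : ∀ g : k[X][X], g.degree < f'.degree → AdjoinRoot.mk f' g = 0 → g = 0 := by
    intro g hg h0
    rw [AdjoinRoot.mk_eq_zero] at h0
    by_contra hne
    exact absurd (degree_le_of_dvd h0 hne) (not_le.mpr hg)
  have hmi : Function.Injective (mapRingHom φ) := Polynomial.map_injective φ φ.injective
  have hdegmap : ∀ g : K[X][X], (g.map (mapRingHom φ)).degree = g.degree := fun g =>
    degree_map_eq_of_injective hmi g
  have hdf : f'.degree = f.degree := hdegmap f
  have hιi : Function.Injective ι := by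
    rw [injective_iff_map_eq_zero]
    intro z hz
    obtain ⟨g, hg, rfl⟩ := hrep z
    rw [hι] at hz
    have h1 := hsmall _ (by rw [hdegmap, hdf]; exact hg) hz
    have h2 : g = 0 := by
      apply Polynomial.map_injective _ hmi
      rw [h1, Polynomial.map_zero]
    rw [h2, map_zero]
  let ψ : L →+* L' := IsFractionRing.lift (A := AdjoinRoot f) (K := L)
    (g := (algebraMap (AdjoinRoot f') L').comp ι)
    ((IsFractionRing.injective (AdjoinRoot f') L').comp hιi)
  have hψ : ∀ z : AdjoinRoot f, ψ (algebraMap (AdjoinRoot f) L z) =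
      algebraMap (AdjoinRoot f') L' (ι z) := fun z => IsFractionRing.lift_algebraMap _ _
  letI : Algebra k L' := ((algebraMap (AdjoinRoot f') L').comp
    ((AdjoinRoot.of f').comp C)).toAlgebra
  have hkL : ∀ c : k, algebraMap k L' c = algebraMap (AdjoinRoot f') L' (AdjoinRoot.mk f' (C (C c))) :=
    fun _ => rfl
  have hψK : ∀ c : K, ψ (algebraMap K L c) = algebraMap k L' (φ c) := by
    intro c
    rw [hc, hψ, hkL]
    congr 1
    change ι (AdjoinRoot.mk f (C (C c))) = _
    rw [hι, Polynomial.map_C, coe_mapRingHom, Polynomial.map_C]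
  obtain ⟨c, hcc⟩ : ∃ c : k, ψ t = algebraMap k L' c := by
    obtain ⟨p, hp0, hp⟩ := ht
    have h1 : IsAlgebraic k (ψ t) := by
      refine ⟨p.map φ, (Polynomial.map_ne_zero_iff φ.injective).2 hp0, ?_⟩
      rw [aeval_def, eval₂_map]
      have h2 := congrArg ψ hp
      rw [map_zero, aeval_def, hom_eval₂] at h2
      have h4 : ψ.comp (algebraMap K L) = (algebraMap k L').comp φ :=
        RingHom.ext fun c => hψK c
      rwa [h4] at h2
    have h2 := IsAlgClosed.degree_eq_one_of_irreducible k (minpoly.irreducible h1.isIntegral)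
    obtain ⟨c, hc⟩ := minpoly.mem_range_of_degree_eq_one k (ψ t) h2
    exact ⟨c, hc.symm⟩
  obtain ⟨a, b, hb, rfl⟩ := IsFractionRing.div_surjective (A := AdjoinRoot f) t
  haveI : IsDomain (AdjoinRoot f) := hιi.isDomain ι
  have hb0 : b ≠ 0 := nonZeroDivisors.ne_zero hb
  have hbL : algebraMap (AdjoinRoot f) L b ≠ 0 := by
    rw [map_ne_zero_iff _ (IsFractionRing.injective (AdjoinRoot f) L)]
    exact hb0
  obtain ⟨g, hg, rfl⟩ := hrep a
  obtain ⟨h, hh, rfl⟩ := hrep b
  have e1 : ψ (algebraMap (AdjoinRoot f) L (AdjoinRoot.mk f g)) =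
      algebraMap k L' c * ψ (algebraMap (AdjoinRoot f) L (AdjoinRoot.mk f h)) := by
    rw [← hcc, ← map_mul, div_mul_cancel₀ _ hbL]
  rw [hψ, hψ, hι, hι, hkL, ← map_mul, ← map_mul] at e1
  have e2 := IsFractionRing.injective (AdjoinRoot f') L' e1
  have e3 : g.map (mapRingHom φ) = C (C c) * h.map (mapRingHom φ) := by
    rw [← sub_eq_zero]
    apply hsmall
    · refine lt_of_le_of_lt (degree_sub_le _ _) (max_lt ?_ ?_)
      · rw [hdegmap, hdf]
        exact hg
      · have h5 : (C (C c) * h.map (mapRingHom φ)).degree ≤ (h.map (mapRingHom φ)).degree := by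
          refine (degree_mul_le _ _).trans ?_
          calc (C (C c) : k[X][X]).degree + (h.map (mapRingHom φ)).degree
              ≤ 0 + (h.map (mapRingHom φ)).degree := add_le_add degree_C_le le_rfl
            _ = _ := zero_add _
        refine lt_of_le_of_lt h5 ?_
        rw [hdegmap, hdf]
        exact hh
    · rw [map_sub, e2, sub_self]
  have hh0 : h ≠ 0 := by
    rintro rfl
    exact hb0 (map_zero _)
  obtain ⟨i, hi⟩ : ∃ i, h.coeff i ≠ 0 := by
    by_contra hcon
    push Not at hcon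
    exact hh0 (Polynomial.ext fun i => by rw [hcon i, coeff_zero])
  obtain ⟨j, hj⟩ : ∃ j, (h.coeff i).coeff j ≠ 0 := by
    by_contra hcon
    push Not at hcon
    exact hi (Polynomial.ext fun i => by rw [hcon i, coeff_zero])
  have e4 := congrArg (fun p : k[X][X] => (p.coeff i).coeff j) e3
  simp only [coeff_map, coe_mapRingHom, coeff_C_mul] at e4
  have hφj : φ ((h.coeff i).coeff j) ≠ 0 := (_root_.map_ne_zero φ).mpr hj
  refine ⟨(g.coeff i).coeff j / (h.coeff i).coeff j, ?_⟩
  apply ψ.injective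
  rw [hcc, hψK, map_div₀, e4, mul_div_assoc, div_self hφj, mul_one]

open Pool.Agent.Zk97.CB in
theorem t_XY : StXY := by
  intro K L _ _ _ _ f hf hd habs _ _ hc
  have hirr : Irreducible f := by
    have h1 := habs K (RingHom.id K)
    rwa [mapRingHom_id, Polynomial.map_id] at h1
  refine ⟨fun O => ?_, fun t ht => ?_⟩
  · obtain ⟨x, hx⟩ : ∃ x : L, x ∉ O.1 := by
      by_contra hcon
      push Not at hcon
      exact O.2.2 (eq_top_iff.mpr fun x _ => hcon x)
    have hxt : Transcendental K x := fun h => hx (mem_of_alg h O.1 O.2.1)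
    obtain ⟨⟨t, ht⟩, -⟩ := (Pool.Agent.H928R2.Inv.places x hxt
      (fd_of_transcendental K L f hirr hc x hxt)).2 O.1 O.2.1 hx
    exact unif_dvr ht
  · refine const_alg f hf hd (habs _ _) hc t ?_
    by_contra hcon
    obtain ⟨O, hO, htO⟩ := Pool.Agent.Zk86.CB.P0.ex_place (K := K) (x := t) hcon
    refine htO (ht ⟨O, hO, ?_⟩)
    rintro rfl
    exact htO trivial

end Pool.Agent.Zk52.CB
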