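import Pool.Agent.Zk52.CB.D
import Pool.Agent.H928R2.Inv2
import Mathlib.RingTheory.AlgebraicIndependent.TranscendenceBasis
import Mathlib.FieldTheory.IntermediateField.Adjoin.Algebra

set_option autoImplicit false
set_option linter.unusedSectionVars false
set_option linter.style.haveILetI false

open Polynomial Algebra

namespace Pool.Agent.Zk52.CB

/-- a function field of one variable is finite over the field generated by a transcendental element -/
theorem fd_of_transcendental (K L : Type) [Field K] [Field L] [Algebra K L] (f : K[X][X])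
    (hf : Irreducible f) [Algebra (AdjoinRoot f) L] [IsFractionRing (AdjoinRoot f) L]
    (hc : ∀ c : K, algebraMap K L c = algebraMap (AdjoinRoot f) L (AdjoinRoot.of f (C c)))
    (t : L) (ht : Transcendental K t) : FiniteDimensional (IntermediateField.adjoin K {t}) L := by
  haveI : Fact (Irreducible f) := ⟨hf⟩
  haveI hdom : IsDomain (AdjoinRoot f) := by
    have h1 : (Ideal.span {f}).IsPrime :=
      (Ideal.span_singleton_prime hf.ne_zero).mpr hf.prime
    exact Ideal.Quotient.isDomain (Ideal.span {f})
  have hmap : ∀ c : K, algebraMap K (AdjoinRoot f) c = AdjoinRoot.of f (C c) := fun _ => rfl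
  haveI htow : IsScalarTower K (AdjoinRoot f) L := IsScalarTower.of_algebraMap_eq fun c => by
    rw [hmap, hc]
  have htr0 : Algebra.trdeg K (AdjoinRoot f) = 1 := trdeg_irr f hf
  haveI halg : Algebra.IsAlgebraic (AdjoinRoot f) L :=
    IsLocalization.isAlgebraic (R := AdjoinRoot f) (S := L) (nonZeroDivisors (AdjoinRoot f))
  haveI : FaithfulSMul (AdjoinRoot f) L := IsFractionRing.instFaithfulSMul _ _
  have htr : Algebra.trdeg K L = 1 := by
    have h1 := trdeg_add_eq K (AdjoinRoot f) (A := L)
    have h0 : Algebra.trdeg (AdjoinRoot f) L = 0 := trdeg_eq_zero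
    rw [h0, add_zero, htr0] at h1
    exact h1.symm
  have hfin : Algebra.FiniteType K (AdjoinRoot f) := by
    have h1 : Algebra.FiniteType K K[X][X] :=
      Algebra.FiniteType.trans (S := K[X]) inferInstance inferInstance
    exact Algebra.FiniteType.of_surjective (Ideal.Quotient.mkₐ K (Ideal.span {f}))
      (Ideal.Quotient.mkₐ_surjective K (Ideal.span {f}))
  haveI : Algebra.EssFiniteType (AdjoinRoot f) L :=
    Algebra.EssFiniteType.of_isLocalization L (nonZeroDivisors (AdjoinRoot f))
  haveI : Algebra.EssFiniteType K L := Algebra.EssFiniteType.comp K (AdjoinRoot f) L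
  have h1 : AlgebraicIndependent K (fun _ : Unit => t) :=
    algebraicIndependent_unique_type_iff.mpr ht
  have h2 : IsTranscendenceBasis K (fun _ : Unit => t) :=
    h1.isTranscendenceBasis_of_trdeg_le_of_finite (by rw [htr]; simp)
  haveI h3 : Algebra.IsAlgebraic (IntermediateField.adjoin K {t}) L := by
    have h4 := h2.isAlgebraic_field
    rwa [Set.range_const] at h4
  haveI h5 : Algebra.EssFiniteType (IntermediateField.adjoin K {t}) L :=
    Algebra.EssFiniteType.of_comp K _ _
  exact Algebra.finite_of_essFiniteType_of_isAlgebraic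

/-- P1: the finiteness of the set of the valuation rings which do not contain `t` -/
theorem t_P1 (K L : Type) [Field K] [CharZero K] [Field L] [Algebra K L] (f : K[X][X])
    (hf : Irreducible f) [Algebra (AdjoinRoot f) L] [IsFractionRing (AdjoinRoot f) L]
    (hc : ∀ c : K, algebraMap K L c = algebraMap (AdjoinRoot f) L (AdjoinRoot.of f (C c)))
    (t : L) : {O : ValuationSubring L | (∀ c : K, algebraMap K L c ∈ O) ∧ t ∉ O}.Finite := by
  by_cases ht : IsAlgebraic K t
  · convert Set.finite_empty
    rw [Set.eq_empty_iff_forall_notMem]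
    rintro O ⟨hO, htO⟩
    apply htO
    obtain ⟨p, hp, hpt⟩ := ht.isIntegral
    let g : K →+* O := (algebraMap K L).codRestrict O.toSubring hO
    have h1 : IsIntegral O t := by
      refine ⟨p.map g, hp.map g, ?_⟩
      rw [eval₂_map]
      exact hpt
    obtain ⟨y, hy⟩ := IsIntegrallyClosed.isIntegral_iff.1 h1
    rw [← hy]
    exact y.2
  · exact (Pool.Agent.H928R2.Inv.places t ht (fd_of_transcendental K L f hf hc t ht)).1

end Pool.Agent.Zk52.CB
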